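import Mathlib
import Pool.Agent.Work.MP_933b0f_co.Defs
import Pool.Agent.Work.MP_933b0f_co.Main

namespace Pool.Agent.Results.MP_933b0f_co.ComponentExceeds

open Pool.Agent.Work.MP_933b0f_co

/-- For every `ε` with `0 < ε ≤ 1/17`, all large `n` and `q = (1 - ε) n` an integer, Waiter can
force a component of order larger than `min {n, 2 (n - q - 1)}`; in particular there is a constant
`ε > 0` for which `comp n q ≠ min {n, 2 (n - q - 1)}` for infinitely many `n` with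
`q = (1 - ε) n` a positive integer. -/
theorem result :
    (∀ ε : ℝ, 0 < ε → ε ≤ 1 / 17 → ∃ N : ℕ, ∀ n q : ℕ, N ≤ n → (q : ℝ) = (1 - ε) * (n : ℝ) →
      min n (2 * (n - q - 1)) < comp n q) ∧
    (∃ ε : ℝ, 0 < ε ∧ ∀ N : ℕ, ∃ n q : ℕ, N ≤ n ∧ 0 < q ∧ (q : ℝ) = (1 - ε) * (n : ℝ) ∧
      comp n q ≠ min n (2 * (n - q - 1))) := by
  have part1 : ∀ ε : ℝ, 0 < ε → ε ≤ 1 / 17 → ∃ N : ℕ, ∀ n q : ℕ, N ≤ n →
      (q : ℝ) = (1 - ε) * (n : ℝ) → min n (2 * (n - q - 1)) < comp n q := by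
    intro ε h0 h1
    obtain ⟨N, hN⟩ := exists_nat_ge (2 / ε)
    refine ⟨N, fun n q hn hq => ?_⟩
    have hn' : (2 : ℝ) / ε ≤ n := hN.trans (by exact_mod_cast hn)
    have h2 : 2 ≤ ε * n := by
      rw [div_le_iff₀ h0] at hn'
      linarith
    have h3 : ((q : ℝ) + 2) ≤ n := by rw [hq]; linarith
    have h4 : q + 2 ≤ n := by exact_mod_cast h3
    obtain ⟨D, hD⟩ : ∃ D, n = q + 1 + D := ⟨n - (q + 1), by omega⟩
    have hDD : n - q - 1 = D := by omega
    have h5 : (n : ℝ) = q + 1 + D := by exact_mod_cast hD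
    have h6 : (16 : ℝ) * D ≤ q + 1 := by
      have e1 : (D : ℝ) = ε * n - 1 := by rw [hq] at h5; linarith
      have e2 : ε * n ≤ 1 / 17 * n := mul_le_mul_of_nonneg_right h1 (by positivity)
      rw [e1, hq]
      linarith
    have h7 : 16 * D ≤ q + 1 := by exact_mod_cast h6
    have h8 := main n q (by omega) (by rw [hDD]; exact h7)
    have h9 : min n (2 * (n - q - 1)) ≤ 2 * (n - q - 1) := min_le_right _ _
    omega
  refine ⟨part1, 1 / 17, by norm_num, ?_⟩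
  intro N
  obtain ⟨N1, hN1⟩ := part1 (1 / 17) (by norm_num) le_rfl
  have hq : ((16 * (N + N1 + 1) : ℕ) : ℝ) = (1 - 1 / 17) * ((17 * (N + N1 + 1) : ℕ) : ℝ) := by
    push_cast
    ring
  exact ⟨17 * (N + N1 + 1), 16 * (N + N1 + 1), by omega, by omega, hq,
    (hN1 _ _ (by omega) hq).ne'⟩

end Pool.Agent.Results.MP_933b0f_co.ComponentExceeds
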